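import Pool.Agent.R121.Cyc231

set_option autoImplicit false

/-!
# Pattern-avoiding permutations with cycles of length at most 3: 231 against 321

For `n = 38` there are more permutations avoiding 321 with all cycles of length at most 3 than
permutations avoiding 231 with all cycles of length at most 3.
-/

namespace Pool.Agent.Results.MP_fa04ef_co.FailsAt38

open Finset Pool.Agent.R121

/-- The permutation `π` of `Fin n` contains the pattern with one-line notation `σ`. -/
def Contains {n : ℕ} (π : Equiv.Perm (Fin n)) (σ : Fin 3 → ℕ) : Prop :=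
  ∃ i : Fin 3 → Fin n, StrictMono i ∧ ∀ a b, π (i a) < π (i b) ↔ σ a < σ b

/-- `a n S σ`: the number of permutations of `Fin n` avoiding `σ` all of whose cycles have a length
in `S`. -/
noncomputable def a (n : ℕ) (S : Set ℕ) (σ : Fin 3 → ℕ) : ℕ :=
  Nat.card {π : Equiv.Perm (Fin n) // ¬ Contains π σ ∧ ∀ x, Function.minimalPeriod π x ∈ S}

lemma a_le : a 38 {1, 2, 3} ![2, 3, 1] ≤ (Cyc231.S 38).card := by
  classical
  unfold a
  rw [Nat.card_eq_fintype_card, Fintype.card_subtype]
  apply card_le_card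
  intro π hπ
  simp only [mem_filter, mem_univ, true_and] at hπ
  obtain ⟨h1, h2⟩ := hπ
  rw [Cyc231.mem_S]
  constructor
  · rintro x y z hxy hyz hz ⟨h3, h4⟩
    apply h1
    have e1 := fn_fin π ⟨x, by omega⟩
    have e2 := fn_fin π ⟨y, by omega⟩
    have e3 := fn_fin π ⟨z, hz⟩
    simp only at e1 e2 e3
    rw [e1, e3] at h3
    rw [e1, e2] at h4
    refine ⟨![⟨x, by omega⟩, ⟨y, by omega⟩, ⟨z, hz⟩], ?_, ?_⟩
    · intro p q hpq
      fin_cases p <;> fin_cases q <;> simp at hpq ⊢ <;> omega
    · intro p q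
      have l1 : π ⟨z, hz⟩ < π ⟨x, by omega⟩ := h3
      have l2 : π ⟨x, by omega⟩ < π ⟨y, by omega⟩ := h4
      have l3 := l1.trans l2
      fin_cases p <;> fin_cases q <;> simp [l1, l2, l3, l1.le, l2.le, l3.le]
  · intro x hx
    have h3 := h2 ⟨x, hx⟩
    have h4 := Function.isPeriodicPt_minimalPeriod π ⟨x, hx⟩
    simp only [Set.mem_insert_iff, Set.mem_singleton_iff] at h3
    unfold Cyc321.c3
    have e1 : fn π x = π ⟨x, hx⟩ := fn_fin π ⟨x, hx⟩
    have e2 : fn π (fn π x) = π (π ⟨x, hx⟩) := by rw [e1]; exact fn_fin π _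
    have e3 : fn π (fn π (fn π x)) = π (π (π ⟨x, hx⟩)) := by rw [e2]; exact fn_fin π _
    rw [e3, e2, e1]
    rcases h3 with h3 | h3 | h3
    · rw [h3] at h4
      left
      exact congrArg Fin.val h4
    · rw [h3] at h4
      right; left
      exact congrArg Fin.val h4
    · rw [h3] at h4
      right; right
      exact congrArg Fin.val h4

lemma le_a : Cyc321.cnt 38 [] ≤ a 38 {1, 2, 3} ![3, 2, 1] := by
  classical
  unfold a
  rw [Nat.card_eq_fintype_card, Fintype.card_subtype]
  apply Cyc321.cnt_le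
  intro π h1 h2
  simp only [mem_filter, mem_univ, true_and]
  constructor
  · rintro ⟨i, hi, h3⟩
    have h4 := h3 1 0
    have h5 := h3 2 1
    simp at h4 h5
    apply h1 (i 0) (i 1) (i 2) (hi (by decide)) (hi (by decide)) (i 2).2
    rw [fn_fin, fn_fin, fn_fin]
    exact ⟨h5, h4⟩
  · intro x
    have h3 := h2 x x.2
    unfold Cyc321.c3 at h3
    have e1 : fn π x = π x := fn_fin π x
    have e2 : fn π (fn π x) = π (π x) := by rw [e1]; exact fn_fin π _
    have e3 : fn π (fn π (fn π x)) = π (π (π x)) := by rw [e2]; exact fn_fin π _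
    rw [e3, e2, e1] at h3
    have key : ∃ k, 0 < k ∧ k ≤ 3 ∧ Function.IsPeriodicPt π k x := by
      rcases h3 with h3 | h3 | h3
      · exact ⟨1, by omega, by omega, Fin.ext h3⟩
      · exact ⟨2, by omega, by omega, Fin.ext h3⟩
      · exact ⟨3, by omega, by omega, Fin.ext h3⟩
    obtain ⟨k, hk0, hk3, hk⟩ := key
    have h4 := hk.minimalPeriod_le hk0
    have h5 := hk.minimalPeriod_pos hk0
    simp only [Set.mem_insert_iff, Set.mem_singleton_iff]
    omega

lemma ub38 : (Cyc231.ub 38).getD 0 0 = 111917065496883 := by decide +kernel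

/-- **Q1 of MP_fa04ef_co is false**: the last inequality fails for `n = 38`. -/
theorem result : a 38 {1, 2, 3} ![2, 3, 1] < a 38 {1, 2, 3} ![3, 2, 1] := by
  have h1 := Cyc231.card_S_ub 38 0 (by omega)
  rw [ub38, Nat.sub_zero] at h1
  have h2 := le_a
  rw [Cyc321.cnt38] at h2
  have h3 := a_le
  omega

end Pool.Agent.Results.MP_fa04ef_co.FailsAt38
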